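import Pool.Agent.W717.UR.Stm

/-! UR-ULTRA: a minimal closed left ideal -/

set_option autoImplicit false

open Filter Topology Set

namespace Pool.Agent.W174.UR

attribute [local instance] Ultrafilter.addSemigroup

theorem ultra : Pool.Agent.W717.UR.S_ULTRA := by
  let S : Set (Set (Ultrafilter ℕ)) :=
    {L | IsClosed L ∧ L.Nonempty ∧ ∀ p, ∀ s ∈ L, p + s ∈ L}
  obtain ⟨L, hL⟩ : ∃ L', Minimal (· ∈ S) L' := by
    apply zorn_superset
    intro c cs hc
    refine ⟨⋂₀ c, ⟨isClosed_sInter fun t ht => (cs ht).1, ?_, ?_⟩, fun s hs => sInter_subset_of_mem hs⟩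
    · obtain rfl | hcnemp := c.eq_empty_or_nonempty
      · rw [sInter_empty]
        exact univ_nonempty
      · rw [sInter_eq_iInter]
        have := hcnemp.coe_sort
        refine IsCompact.nonempty_iInter_of_directed_nonempty_isCompact_isClosed _
          (DirectedOn.directed_val (IsChain.directedOn hc.symm)) (fun i => (cs i.prop).2.1)
          (fun i => (cs i.prop).1.isCompact) (fun i => (cs i.prop).1)
    · intro p s hs t ht
      exact (cs ht).2.2 p s (hs t ht)
  obtain ⟨⟨hcl, hne, hid⟩, hmin⟩ := hL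
  refine ⟨L, hcl, hne, hid, ?_⟩
  intro s hs t ht
  have h1 : (range fun p : Ultrafilter ℕ => p + s) ∈ S := by
    refine ⟨?_, range_nonempty _, ?_⟩
    · exact (isCompact_range (Ultrafilter.continuous_add_left s)).isClosed
    · rintro p _ ⟨r, rfl⟩
      exact ⟨p + r, add_assoc _ _ _⟩
  have h2 : (range fun p : Ultrafilter ℕ => p + s) ⊆ L := by
    rintro _ ⟨r, rfl⟩
    exact hid r s hs
  have h3 := hmin h1 h2
  exact h3 ht

end Pool.Agent.W174.UR
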